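import Pool.Agent.Q260.AL.Bridge2

set_option autoImplicit false

/-!
# No local lifting is compatible with all global liftings (`GL₂`, standard representation)

Let `k` be a finite field, `K = k(t)`, and let `F = K_∞ = k((1/t))` be the completion at the place
`∞` (every local field of positive characteristic is of this form). Let `G = GL₂` and let `ρ` be the
standard representation of the dual group, so that the unramified lifting is the identity. We prove
that there is no map `l : Irr(GL₂(F)) → Irr(GL₂(F))` such that the component at `∞` of the isobaric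
global lifting of `π` is `l(π_∞)` for all automorphic representations `π` of `GL₂(A_K)`.

The definitions are in `Pool/Agent/Q260/AL/Gen.lean` (for a Dedekind domain `R`, its field of
fractions `K` and the completion `F` of `K` at the place `∞`; here `R = k[t]`):

* `GL₂(A_K)` is `GL (Fin 2) F × GL (Fin 2) (FiniteAdeleRing R K)`;
* representations are the objects of Mathlib's category `Rep ℂ _`; `IrrSm`: irreducible and smooth;
* `Form`: automorphic forms (left invariant under `GL₂(K)`, right invariant under an open
  subgroup, generating an admissible representation of `GL₂(K_∞)`); `Cusp`: cusp forms;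
  `Automorphic`, `Cuspidal`: the irreducible subquotients of these spaces;
* `Comp (atInf ..) σ P`, `Comp (atFin .. v) σ P`: `σ` is the component of `P` at `∞`, at `v` (`σ` is
  irreducible and there is a nonzero `GL₂(K_v)`-equivariant map `σ → P`);
* `HasFixed (GL2O v) σ`: `σ` is unramified;
* `Isobaric P`: `P` is automorphic, and it is cuspidal or the isobaric sum `χ₁ ⊞ χ₂` of two Hecke
  characters (the exponent of `χ₁` is at least that of `χ₂`, and `P` is a subrepresentation of the
  normalised induced representation of `(χ₂, χ₁)`; locally this is the Langlands quotient of the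
  one of `(χ₁, χ₂)`);
* `GlobalLift π P`: `P` is isobaric and has the same component as `π` at all places at which `π` is
  unramified.

The proof: let `π₁` be the representation with Steinberg component at `∞` and with trivial
components at all finite places. It is automorphic (but it is not isobaric) and its lifting is the
trivial representation, the isobaric sum `|.|^{1/2} ⊞ |.|^{-1/2}`. On the other hand there is a
cuspidal representation `π₂` with the same component at `∞`, and it is its own lifting.
-/

namespace Pool.Agent.Results.MP_5ae62c_nt.NoLocalLift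

open Pool.Agent.Q260 Pool.Agent.Q260.Gen IsDedekindDomain
open scoped MatrixGroups Polynomial

/-- **There is no local lifting which is compatible with the global liftings.** The first part gives
two automorphic representations `π₁`, `π₂` of `GL₂(A_K)` with isobaric liftings `P₁`, `P₂`
(`P₁` is the trivial representation and `P₂ = π₂` is cuspidal) which have the same component `τ` at
`∞`, and such that the components `σ₁`, `σ₂` of `P₁`, `P₂` at `∞` are not isomorphic. The group
`GL₂(A_f)` acts trivially on `π₁`. The second part is the answer to the question. -/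
theorem result (k : Type) [Field k] [Finite k] [DecidableEq (RatFunc k)] :
    (∃ (π₁ π₂ P₁ P₂ : Rep.{0} ℂ (GL (Fin 2) (RatFunc.CompletionAtInfty k) ×
        GL (Fin 2) (FiniteAdeleRing k[X] (RatFunc k))))
      (τ σ₁ σ₂ : Rep.{0} ℂ (GL (Fin 2) (RatFunc.CompletionAtInfty k))),
      Automorphic k[X] (RatFunc k) (RatFunc.CompletionAtInfty k) π₁ ∧
      Automorphic k[X] (RatFunc k) (RatFunc.CompletionAtInfty k) π₂ ∧
      GlobalLift k[X] (RatFunc k) (RatFunc.CompletionAtInfty k) Valued.v (Nat.card k) π₁ P₁ ∧
      GlobalLift k[X] (RatFunc k) (RatFunc.CompletionAtInfty k) Valued.v (Nat.card k) π₂ P₂ ∧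
      Comp (atInf k[X] (RatFunc k) (RatFunc.CompletionAtInfty k)) τ π₁ ∧
      Comp (atInf k[X] (RatFunc k) (RatFunc.CompletionAtInfty k)) τ π₂ ∧
      Comp (atInf k[X] (RatFunc k) (RatFunc.CompletionAtInfty k)) σ₁ P₁ ∧
      Comp (atInf k[X] (RatFunc k) (RatFunc.CompletionAtInfty k)) σ₂ P₂ ∧
      IsEmpty (CategoryTheory.Iso σ₁ σ₂) ∧
      (∀ g w, P₁.ρ g w = w) ∧ P₂ = π₂ ∧
      Cuspidal k[X] (RatFunc k) (RatFunc.CompletionAtInfty k) π₂ ∧
      (∀ y w, π₁.ρ (1, y) w = w)) ∧
    ¬ ∃ l : Rep.{0} ℂ (GL (Fin 2) (RatFunc.CompletionAtInfty k)) →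
        Rep.{0} ℂ (GL (Fin 2) (RatFunc.CompletionAtInfty k)),
      ∀ π P τ, Automorphic k[X] (RatFunc k) (RatFunc.CompletionAtInfty k) π →
        GlobalLift k[X] (RatFunc k) (RatFunc.CompletionAtInfty k) Valued.v (Nat.card k) π P →
        Comp (atInf k[X] (RatFunc k) (RatFunc.CompletionAtInfty k)) τ π →
        Comp (atInf k[X] (RatFunc k) (RatFunc.CompletionAtInfty k)) (l τ) P := by
  rename_i h1 h2 h3
  obtain rfl : h3 = AL.instDecEqRatFunc k := Subsingleton.elim _ _
  have := Fintype.ofFinite k
  obtain ⟨π₁, π₂, τ, h1, h2, h3, h4, h5, h6, h7, h8, h9⟩ := AL.mainG k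
  refine ⟨⟨AL.toRep π₁, AL.toRep π₂, AL.toRep (AL.TrivT _), AL.toRep π₂, AL.toRep τ,
    AL.toRep (AL.TrivT _), AL.toRep τ, h1, h4, h5, h6, h7, h8, AL.comp_inf AL.TrivT_compInf, h8,
    ⟨fun e => ?_⟩, fun _ _ => rfl, rfl, h3, h2⟩, ?_⟩
  · obtain ⟨T, hT, hT'⟩ := h8.2
    refine h9 _ (AL.comp_inf AL.TrivT_compInf) ⟨AL.toRep_irrSm _,
      T.comp e.hom.hom.toLinearMap, fun h0 => hT ?_, fun x g hx w => ?_⟩
    · refine LinearMap.ext fun y => ?_
      have h11 := congrArg (fun U => U (e.inv.hom y)) h0
      change T (e.hom.hom (e.inv.hom y)) = 0 at h11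
      rw [Rep.hom_inv_apply] at h11
      exact h11
    · change T (e.hom.hom _) = _
      rw [Rep.hom_comm_apply, hT' x g hx]
      rfl
  · rintro ⟨l, hl⟩
    exact h9 _ (hl _ _ _ h1 h5 h7) (hl _ _ _ h4 h6 h8)

end Pool.Agent.Results.MP_5ae62c_nt.NoLocalLift
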